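import Pool.Agent.PFE.StmtsE1

/-!
# Row CFU of squad PFE, part E1: the unit `u`
-/

open scoped BigOperators

noncomputable section

namespace Pool.Agent.PFE.H9

open Pool.Agent.PFC.B1 (FS Split)
open Pool.Agent.PFD (RF FotStmt)

theorem fs_left {K C I : Type} [Field K] [Ring C] [Algebra K C] [Fintype I] (c : FS K C I) {z : C}
    (h : ∀ x, c.lam (z * x) = 0) : z = 0 := by
  rw [← c.h2 z]
  exact Finset.sum_eq_zero fun i _ => by rw [h, zero_smul]

theorem fs_right {K C I : Type} [Field K] [Ring C] [Algebra K C] [Fintype I] (c : FS K C I)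
    {z : C} (h : ∀ x, c.lam (x * z) = 0) : z = 0 := by
  rw [← c.h1 z]
  exact Finset.sum_eq_zero fun i _ => by rw [h, zero_smul]

theorem cfu (cfs : CfsStmt) : CfuStmt := by
  intro K A X S J Ω Ω' C _ _ _ _ _ _ _ _ _ _ _ _ _ y l χ D L F ρ Q j _ hy hr
  obtain ⟨c, v, hc, -, -, hsym, -, -, -⟩ := cfs K S C X Ω L.toGS F.toSF l χ Q D.hl D.χl
  -- the form of `S` through the section
  have hlam : ∀ s, F.f.lam s = D.d.lam (y ^ (l - 1) * ρ.r s) := by
    intro s
    have h1 : ∀ x, F.f.lam (L.c x s) = D.d.lam (y ^ (l - 1) * ρ.r (L.c x s)) := by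
      intro x
      have h2 := F.el x ⟨ρ.r (L.c x s), ρ.rx x s⟩
      rw [ρ.rp x s] at h2
      exact h2
    calc F.f.lam s = F.f.lam (∑ x, L.c x s) := by rw [L.cs s]
      _ = ∑ x, D.d.lam (y ^ (l - 1) * ρ.r (L.c x s)) := by
          rw [map_sum]
          exact Finset.sum_congr rfl fun x _ => h1 x
      _ = D.d.lam (y ^ (l - 1) * ρ.r s) := by
          rw [← map_sum, ← Finset.mul_sum, ← map_sum, L.cs s]
  have hl2 : 2 ≤ l := D.hl
  -- the form `t` is nondegenerate
  have hnd : ∀ c0 : C, (∀ b, D.d.lam (j (c0 * b)) = 0) → c0 = 0 := by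
    intro c0 h0
    have hs : ∀ k, k < l → Q.co k c0 = 0 := by
      intro k
      induction k using Nat.strong_induction_on with
      | _ k ih =>
        intro hk
        refine fs_right F.f fun s => ?_
        have h1 : c0 * (Q.y ^ (l - 1 - k) * Q.i s) = Q.i (Q.co k c0) * Q.y ^ (l - 1) * Q.i s := by
          conv_lhs => rw [← Q.ex c0]
          rw [Finset.sum_mul, Finset.sum_eq_single k]
          · rw [← mul_assoc, mul_assoc (Q.i (Q.co k c0)), ← pow_add]
            congr 3
            omega
          · intro m hm hmk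
            rw [Finset.mem_range] at hm
            rcases lt_or_gt_of_ne hmk with h | h
            · rw [ih m h hm, map_zero, zero_mul, zero_mul]
            · rw [← mul_assoc, mul_assoc (Q.i (Q.co m c0)), ← pow_add]
              have h3 : m + (l - 1 - k) = l + (m - k - 1) := by omega
              rw [h3, pow_add, Q.yl, zero_mul, mul_zero, zero_mul]
          · intro h
            exact absurd (Finset.mem_range.2 hk) h
        have h2 := h0 (Q.y ^ (l - 1 - k) * Q.i s)
        rw [h1, map_mul j, map_mul j, map_pow j, hy, hr, hr, mul_assoc, D.ds, mul_assoc,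
          ← map_mul ρ.r, ← hlam] at h2
        exact h2
    rw [← Q.ex c0]
    exact Finset.sum_eq_zero fun k hk => by
      rw [hs k (Finset.mem_range.1 hk), map_zero, zero_mul]
  -- the element `u`
  set u : C := ∑ p, D.d.lam (j (c.b p)) • c.b' p with hu
  have hut : ∀ x, c.lam (u * x) = D.d.lam (j x) := by
    intro x
    rw [hu, Finset.sum_mul, map_sum]
    conv_rhs => rw [← c.h1 x]
    rw [map_sum, map_sum]
    refine Finset.sum_congr rfl fun p _ => ?_
    rw [smul_mul_assoc, map_smul, map_smul, map_smul, smul_eq_mul, smul_eq_mul, mul_comm]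
  have huc : ∀ a, u * a = a * u := by
    intro a
    have h1 : u * a - a * u = 0 := by
      refine fs_left c fun x => ?_
      rw [sub_mul, map_sub, mul_assoc, hut, mul_assoc, hsym a, mul_assoc, hut, map_mul j,
        map_mul j, D.ds, sub_self]
    exact sub_eq_zero.1 h1
  have hinj : Function.Injective (LinearMap.mulLeft K u) := by
    rw [← LinearMap.ker_eq_bot, LinearMap.ker_eq_bot']
    intro b hb
    rw [LinearMap.mulLeft_apply] at hb
    refine hnd b fun x => ?_
    rw [← hut, ← mul_assoc, hb, zero_mul, map_zero]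
  obtain ⟨u', hu'⟩ := (LinearMap.injective_iff_surjective.1 hinj) 1
  rw [LinearMap.mulLeft_apply] at hu'
  have hjx : ∀ x s, j (Q.i (L.c x s)) ∈ Nx y χ x := fun x s => by
    rw [hr]
    exact ρ.rx x s
  refine ⟨{
    Q := Q
    j := j
    jy := hy
    jx := hjx
    jp := fun x s => ?_
    t0 := F.f.lam ∘ₗ Q.co (l - 1)
    t0e := fun c => rfl
    u := u
    u' := u'
    uc := huc
    uu := hu'
    ut := fun x => ?_ }, rfl⟩
  · have h1 := ρ.rp x s
    have h2 : (⟨j (Q.i (L.c x s)), hjx x s⟩ : Nx y χ x) = ⟨ρ.r (L.c x s), ρ.rx x s⟩ :=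
      Subtype.ext (hr _)
    rw [h2]
    exact h1
  · rw [← hut x, hc]
    rfl

end Pool.Agent.PFE.H9
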