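import Pool.Agent.PFE.StmtsS

/-!
# Row SGF of squad PFE, block S: fullness goes from `Y(V1)` to `S(Y)`
-/

open scoped BigOperators TensorProduct

noncomputable section

namespace Pool.Agent.PFE.H9

open Pool.Agent.PFC Pool.Agent.PFE Pool.Agent.PFE.S

section aux

variable {F V V1 A : Type} [Field F] [CommGroup V] [CommGroup V1] [Fintype V1] [Ring A]
  [Algebra F A]

theorem tj_one (α : V →* A) (i : V1 →* V) (v : V1) (a : A) :
    tj F α i 1 v a = cj F α (i v) a := rfl

theorem mem_Nt_one (α : V →* A) (i : V1 →* V) {a : A} (h : a ∈ Fx (cj F α) i.range) :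
    a ∈ Nt F α i 1 := by
  intro v _
  rw [tj_one]
  exact h (i v) ⟨v, rfl⟩

theorem mem_Fx_iff (α : V →* A) (Q : Subgroup V) (a : A) :
    a ∈ Fx (cj F α) Q ↔ ∀ v ∈ Q, α v * a = a * α v := by
  constructor
  · intro h v hv
    have h1 : α v * (a * α v⁻¹) = a := h v hv
    calc α v * a = α v * (a * (α v⁻¹ * α v)) := by rw [← map_mul, inv_mul_cancel, map_one, mul_one]
      _ = α v * (a * α v⁻¹) * α v := by simp only [mul_assoc]
      _ = a * α v := by rw [h1]
  · intro h v hv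
    change α v * (a * α v⁻¹) = a
    rw [← mul_assoc, h v hv, mul_assoc, ← map_mul, mul_inv_cancel, map_one, mul_one]

theorem mul_mem_Fx (α : V →* A) (Q : Subgroup V) {a b : A} (ha : a ∈ Fx (cj F α) Q)
    (hb : b ∈ Fx (cj F α) Q) : a * b ∈ Fx (cj F α) Q := by
  rw [mem_Fx_iff] at ha hb ⊢
  intro v hv
  rw [← mul_assoc, ha v hv, mul_assoc, hb v hv, mul_assoc]

end aux

theorem sgf : SgfStmt := by
  intro _ ptt qke ℓ _ F V V1 C S _ _ _ _ _ _ _ _ _ _ Y B i θ q j β s hV hc hi hB hS hj hf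
  have hk := qke ℓ F V Y.A B.A (cj F Y.ι) (cj F B.ι) i.range β s hV hB.toBrS
  have hsf := hk.1
  have hθ : θ 1 = 1 := map_one θ
  have hN : ∀ a ∈ Fx (cj F Y.ι) i.range, a ∈ Nt F Y.ι i (θ 1) := fun a ha => by
    rw [hθ]
    exact mem_Nt_one Y.ι i ha
  have hmul : ∀ a ∈ Fx (cj F Y.ι) i.range, ∀ b ∈ Fx (cj F Y.ι) i.range,
      q 1 (a * b) = q 1 a * q 1 b := fun a ha b hb => by
    have := hS.mul 1 1 a (hN a ha) b (hN b hb)
    rwa [mul_one] at this
  have key : ∀ x ∈ Submodule.span F {x | ∃ a b : B.A, x = a * β j * b},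
      ∃ y ∈ Fx (cj F Y.ι) i.range, β y = x ∧
        q 1 y ∈ Submodule.span F {x | ∃ a b : S, x = a * q 1 j * b} := by
    intro x hx
    induction hx using Submodule.span_induction with
    | mem x hx =>
      obtain ⟨a, b, rfl⟩ := hx
      have h1 : s a * j ∈ Fx (cj F Y.ι) i.range := mul_mem_Fx _ _ (hsf a) hj
      refine ⟨s a * j * s b, mul_mem_Fx _ _ h1 (hsf b), ?_, ?_⟩
      · rw [hB.mul _ h1 _ (hsf b), hB.mul _ (hsf a) _ hj, hB.bs, hB.bs]
      · refine Submodule.subset_span ⟨q 1 (s a), q 1 (s b), ?_⟩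
        rw [hmul _ h1 _ (hsf b), hmul _ (hsf a) _ hj]
    | zero => exact ⟨0, Submodule.zero_mem _, map_zero _, by rw [map_zero]; exact Submodule.zero_mem _⟩
    | add x y _ _ hx hy =>
      obtain ⟨x', h1, h2, h3⟩ := hx
      obtain ⟨y', h4, h5, h6⟩ := hy
      exact ⟨x' + y', Submodule.add_mem _ h1 h4, by rw [map_add, h2, h5],
        by rw [map_add]; exact Submodule.add_mem _ h3 h6⟩
    | smul r x _ hx =>
      obtain ⟨x', h1, h2, h3⟩ := hx
      exact ⟨r • x', Submodule.smul_mem _ _ h1, by rw [map_smul, h2],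
        by rw [map_smul]; exact Submodule.smul_mem _ _ h3⟩
  obtain ⟨y, hy, hy1, hy2⟩ := key 1 hf
  have h1F : (1 : Y.A) ∈ Fx (cj F Y.ι) i.range := by
    rw [mem_Fx_iff]
    intro v _
    rw [mul_one, one_mul]
  have hβ1 : β 1 = 1 := by
    have := hB.cov 1
    rwa [Y.ι.map_one, B.ι.map_one] at this
  have hmem : (1 : Y.A) - y ∈ Fx (cj F Y.ι) i.range := Submodule.sub_mem _ h1F hy
  have hbk : (1 : Y.A) - y ∈ BK (cj F Y.ι) i.range :=
    (hk.2.1 _ hmem).1 (by rw [map_sub, hβ1, hy1, sub_self])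
  obtain ⟨m, hm⟩ := (ptt ℓ F V V1 Y.A (cj F Y.ι) i hc hi).1 _ hbk
  have hI : (1 : Y.A) - y ∈ It F Y.ι i (θ 1) := by
    refine Submodule.subset_span (Or.inl ⟨m, ?_⟩)
    rw [hm, hθ]
    unfold Tr
    rw [LinearMap.sum_apply]
    rfl
  classical
  have hq : q 1 ((1 : Y.A) - y) = 0 := by
    have h2 := (hS.ker (Pi.single 1 ((1 : Y.A) - y)) ?_).2 ?_
    · rw [Finset.sum_eq_single (1 : C)] at h2
      · rwa [Pi.single_eq_same] at h2
      · intro c _ hc
        rw [Pi.single_eq_of_ne hc, map_zero]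
      · intro h
        exact absurd (Finset.mem_univ _) h
    · intro c
      by_cases hc : c = 1
      · subst hc
        rw [Pi.single_eq_same]
        exact hN _ hmem
      · rw [Pi.single_eq_of_ne hc]
        exact Submodule.zero_mem _
    · intro c
      by_cases hc : c = 1
      · subst hc
        rw [Pi.single_eq_same]
        exact hI
      · rw [Pi.single_eq_of_ne hc]
        exact Submodule.zero_mem _
  rw [map_sub, hS.one, sub_eq_zero] at hq
  unfold Fl
  rw [hq]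
  exact hy2

end Pool.Agent.PFE.H9
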